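import Pool.Agent.Helper57.KE.St2
import Pool.Agent.Helper57.KR.K2

/-!
# Project KF (MP_45ac3c_an): the critical one-sided kernel (ONC)
-/

set_option autoImplicit false

open scoped BigOperators
open Finset

namespace Pool.Agent.Helper36.KE

open Pool.Agent.Helper57.KE Pool.Agent.Helper57.KR Pool.Agent.Helper65.RG

/-- the sequence `R` -/
private noncomputable def RR (ρ : ℕ → ℝ) (j : ℕ) : ℝ := ∏ l ∈ range j, ρ (l + 1)

private lemma RR_zero (ρ : ℕ → ℝ) : RR ρ 0 = 1 := by simp [RR]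

private lemma RR_succ (ρ : ℕ → ℝ) (j : ℕ) : RR ρ (j + 1) = RR ρ j * ρ (j + 1) := by
  simp [RR, prod_range_succ]

private lemma RR_pos {ρ : ℕ → ℝ} (h : ∀ j, 0 < ρ j) (j : ℕ) : 0 < RR ρ j :=
  prod_pos fun _ _ => h _

private lemma vw_pos {p e : ℝ} {i0 M : ℕ} (hi : 1 ≤ i0) (he : 0 < e)
    (hM : e * ((M : ℝ) + i0) ≤ 1 - p) (j : ℕ) : 0 < vw p e i0 M j := by
  unfold vw
  refine prod_pos fun l hl => ?_
  have hlM : l < M := lt_of_lt_of_le (mem_range.mp hl) (min_le_right _ _)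
  have h1 : (0 : ℝ) < i0 := by exact_mod_cast hi
  have h2 : (0 : ℝ) < (l : ℝ) + i0 := by positivity
  have h3 : (l : ℝ) ≤ M := by exact_mod_cast hlM.le
  have h4 : e ≤ (1 - p) / ((l : ℝ) + i0) := by
    rw [le_div_iff₀ h2]
    refine le_trans ?_ hM
    exact mul_le_mul_of_nonneg_left (by linarith) he.le
  linarith

private lemma vw_lt {p e : ℝ} {i0 M j : ℕ} (h : j < M) :
    vw p e i0 M (j + 1) = vw p e i0 M j * (1 + (1 - p) / ((j : ℝ) + i0) - e) := by
  have e1 : min (j + 1) M = j + 1 := by omega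
  have e2 : min j M = j := by omega
  unfold vw
  rw [e1, e2, prod_range_succ]

private lemma vw_ge {p e : ℝ} {i0 M j : ℕ} (h : M ≤ j) :
    vw p e i0 M (j + 1) = vw p e i0 M j := by
  have e1 : min (j + 1) M = M := by omega
  have e2 : min j M = M := by omega
  unfold vw
  rw [e1, e2]

private lemma ss_mem {c : ℝ} (hc : 1 < c) : 0 < ss c ∧ ss c < 1 := by
  have h1 : 1 < c ^ 2 := by nlinarith
  have h2 : 1 / c ^ 2 < 1 := by
    rw [div_lt_one (by linarith)]
    exact h1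
  have h3 : 0 < 1 / c ^ 2 := by positivity
  unfold ss
  refine ⟨Real.sqrt_pos.mpr (by linarith), ?_⟩
  rw [Real.sqrt_lt' one_pos]
  linarith

private lemma pp_mem {c : ℝ} (hc : 1 < c) : 0 < pp c ∧ pp c < 1 ∧
    ss c * pp c = (1 - pp c) * (1 - ss c) / 2 := by
  obtain ⟨h1, h2⟩ := ss_mem hc
  have h3 : 0 < 1 + ss c := by linarith
  unfold pp
  refine ⟨div_pos (by linarith) h3, ?_, ?_⟩
  · rw [div_lt_one h3]
    linarith
  · field_simp
    ring

/-- the telescoping sum -/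
private lemma tele (q δ C : ℝ) (R : ℕ → ℝ) (hq : q * (1 + δ) = 1) (i : ℕ) :
    ∑ j ∈ range (i + 1), q ^ (i - j + 1) * (C * ((1 + δ) * R j - sh R j)) = C * R i := by
  induction i with
  | zero =>
    simp only [zero_add, range_one, sum_singleton, Nat.sub_zero, pow_one, sh, if_true, sub_zero]
    linear_combination (C * R 0) * hq
  | succ i ih =>
    rw [sum_range_succ]
    have e1 : ∑ j ∈ range (i + 1), q ^ (i + 1 - j + 1) * (C * ((1 + δ) * R j - sh R j)) =
        q * (C * R i) := by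
      rw [← ih, mul_sum]
      refine sum_congr rfl fun j hj => ?_
      have hj' : j ≤ i := by
        have := mem_range.mp hj
        omega
      have e2 : i + 1 - j + 1 = (i - j + 1) + 1 := by omega
      rw [e2, pow_succ]
      ring
    rw [e1]
    have e3 : sh R (i + 1) = R i := by simp [sh]
    rw [e3]
    have e4 : i + 1 - (i + 1) + 1 = 1 := by omega
    rw [e4, pow_one]
    linear_combination (C * R (i + 1)) * hq

/-- the backward induction -/
private lemma back (q δ : ℝ) (w Z : ℕ → ℝ) (hq0 : 0 ≤ q) (hq : q * (1 + δ) = 1)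
    (hZ : ∀ j, 0 ≤ Z j) (hs : ∀ j, w j + Z (j + 1) ≤ (1 + δ) * Z j) (m : ℕ) :
    ∀ j, ∑ i ∈ range m, q ^ (i + 1) * w (j + i) ≤ Z j := by
  induction m with
  | zero =>
    intro j
    simpa using hZ j
  | succ m ih =>
    intro j
    rw [sum_range_succ']
    have e1 : ∑ i ∈ range m, q ^ (i + 1 + 1) * w (j + (i + 1)) =
        q * ∑ i ∈ range m, q ^ (i + 1) * w ((j + 1) + i) := by
      rw [mul_sum]
      refine sum_congr rfl fun i _ => ?_
      have e2 : j + (i + 1) = (j + 1) + i := by omega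
      rw [e2, pow_succ]
      ring
    rw [e1]
    have h1 := ih (j + 1)
    have h2 := hs j
    have h3 : q * (∑ i ∈ range m, q ^ (i + 1) * w ((j + 1) + i)) ≤ q * Z (j + 1) :=
      mul_le_mul_of_nonneg_left h1 hq0
    have h4 : q * (w j + Z (j + 1)) ≤ q * ((1 + δ) * Z j) := mul_le_mul_of_nonneg_left h2 hq0
    have h5 : q * ((1 + δ) * Z j) = Z j := by linear_combination Z j * hq
    have e6 : q ^ (0 + 1) * w (j + 0) = q * w j := by simp
    rw [e6]
    nlinarith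

theorem hONC : StONC := by
  intro hSCH hPOC c hc
  obtain ⟨α, β, γ, δ1, i1, hα, hβ, hγ, hδ1, hδ11, hi1, hP⟩ := hPOC c hc
  obtain ⟨hs0, hs1⟩ := ss_mem hc
  obtain ⟨hp0, hp1, hsp⟩ := pp_mem hc
  refine ⟨δ1, i1, hδ1, hδ11, hi1, ?_⟩
  intro i0 hi0 M N δ e c' hδ hδδ he he4 heM hc' hcc
  have hi0' : 1 ≤ i0 := by omega
  have hi0r : (2 : ℝ) ≤ i0 := by exact_mod_cast (by omega : 2 ≤ i0)
  have hi1r : (i1 : ℝ) ≤ i0 := by exact_mod_cast hi0
  obtain ⟨s, hs⟩ : ∃ s, s = ss c := ⟨_, rfl⟩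
  obtain ⟨p, hp⟩ : ∃ p, p = pp c := ⟨_, rfl⟩
  rw [← hs] at hs0 hs1 hsp he4 hcc
  rw [← hp] at hp0 hp1 hsp he4 heM ⊢
  simp only [← hs, ← hp] at hP
  -- the turning point
  obtain ⟨n0, hn0⟩ : ∃ n0 : ℕ, n0 = ⌊(1 - p) / e⌋₊ := ⟨_, rfl⟩
  have hq0' : 0 ≤ (1 - p) / e := div_nonneg (by linarith) he.le
  have hn1 : (n0 : ℝ) ≤ (1 - p) / e := by
    rw [hn0]
    exact Nat.floor_le hq0'
  have hn2 : (1 - p) / e < (n0 : ℝ) + 1 := by
    rw [hn0]
    exact Nat.lt_floor_add_one _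
  have hn3 : M + i0 ≤ n0 := by
    rw [hn0]
    refine Nat.le_floor ?_
    rw [le_div_iff₀ he]
    push_cast
    linarith
  have hn4 : 2 ≤ (1 - p) / e := by
    have h1 : ((M + i0 : ℕ) : ℝ) ≤ n0 := by exact_mod_cast hn3
    push_cast at h1
    have h2 : (0 : ℝ) ≤ M := Nat.cast_nonneg M
    linarith
  obtain ⟨J, hJ⟩ : ∃ J : ℕ, J = n0 - i0 := ⟨_, rfl⟩
  have hJ1 : J + i0 = n0 := by omega
  have hJM : M ≤ J := by omega
  have hJr : (J : ℝ) + i0 = n0 := by exact_mod_cast hJ1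
  set ρ : ℕ → ℝ := fun j => rr s p α β γ δ (((min j J : ℕ) : ℝ) + i0) with hρ
  have hxi : ∀ j : ℕ, (i1 : ℝ) ≤ (j : ℝ) + i0 := by
    intro j
    have : (0 : ℝ) ≤ j := Nat.cast_nonneg j
    linarith
  have hρp : ∀ j, 0 < ρ j := fun j => (hP _ δ (hxi _) hδ hδδ).1
  have hρ1 : ∀ j, 1 + (1 - s) * δ ≤ (1 + δ) * ρ j := fun j => (hP _ δ (hxi _) hδ hδδ).2.1
  have hsδ : 0 < (1 - s) * δ := mul_pos (by linarith) hδ
  set q : ℝ := (1 + δ)⁻¹ with hq
  have hq0 : 0 < q := by rw [hq]; positivity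
  have hq1 : q * (1 + δ) = 1 := by
    rw [hq]
    exact inv_mul_cancel₀ (by positivity)
  have hC : 0 < c' * δ⁻¹ := by positivity
  set R : ℕ → ℝ := RR ρ with hR
  have hR0 : R 0 = 1 := by rw [hR]; exact RR_zero _
  have hRp : ∀ j, 0 < R j := fun j => RR_pos hρp j
  have hRs : ∀ j : ℕ, R (j + 1) = R j * ρ (j + 1) := fun j => RR_succ _ _
  set v : ℕ → ℝ := vw p e i0 M with hv
  have hvp : ∀ j, 0 < v j := fun j => vw_pos hi0' he heM j
  have hphp : ∀ j, 0 < pw p e i0 M j := fun j => Real.sqrt_pos.mpr (hvp j)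
  have hph2 : ∀ j, pw p e i0 M j * pw p e i0 M j = v j := fun j =>
    Real.mul_self_sqrt (hvp j).le
  have hsh1 : ∀ j, sh R (j + 1) = R j := fun j => by simp [sh]
  have hDp : ∀ j, 0 < (1 + δ) * R j - sh R j := by
    intro j
    rcases j with _ | j
    · simp only [sh, if_true, hR0]
      linarith
    · rw [hsh1, hRs j]
      have h1 := hρ1 (j + 1)
      have h2 := hRp j
      nlinarith
  have hshle : ∀ j, sh R j ≤ R j / ρ j := by
    intro j
    rcases j with _ | j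
    · simp only [sh, if_true]
      exact div_nonneg (hRp _).le (hρp _).le
    · rw [hsh1, hRs j, mul_div_assoc, div_self (hρp _).ne', mul_one]
  -- the inequality for the ratio of the weights
  have hkey : ∀ j : ℕ, δ ^ 2 / c' ^ 2 * v j + v (j + 1) * ((1 + δ) * ρ (j + 1) - 1) ≤
      v j * ((1 + δ) ^ 2 - (1 + δ) / ρ j) := by
    intro j
    have hvj := hvp j
    rcases Nat.lt_or_ge j J with hj | hj
    · have e1 : ρ j = rr s p α β γ δ ((j : ℝ) + i0) := by
        rw [hρ]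
        show rr s p α β γ δ (((min j J : ℕ) : ℝ) + i0) = _
        rw [min_eq_left hj.le]
      have e2 : ρ (j + 1) = rr s p α β γ δ ((j : ℝ) + i0 + 1) := by
        rw [hρ]
        show rr s p α β γ δ (((min (j + 1) J : ℕ) : ℝ) + i0) = _
        rw [min_eq_left (by omega : j + 1 ≤ J)]
        congr 1
        push_cast
        ring
      obtain ⟨-, -, h3, -⟩ := hP ((j : ℝ) + i0) δ (hxi j) hδ hδδ
      rw [← e1, ← e2] at h3
      have h4 := hρ1 (j + 1)
      have hx0 : (0 : ℝ) < (j : ℝ) + i0 := by positivity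
      have hjn : (j : ℝ) + i0 ≤ (1 - p) / e := by
        have h5 : ((j + i0 : ℕ) : ℝ) ≤ n0 := by exact_mod_cast (by omega : j + i0 ≤ n0)
        push_cast at h5
        linarith
      have hex : e ≤ (1 - p) / ((j : ℝ) + i0) := by
        rw [le_div_iff₀ hx0]
        rw [le_div_iff₀ he] at hjn
        linarith
      have hvle : v (j + 1) ≤ v j * (1 + (1 - p) / ((j : ℝ) + i0) - e) := by
        rcases Nat.lt_or_ge j M with h | h
        · exact le_of_eq (vw_lt h)
        · have e3 : v (j + 1) = v j := vw_ge h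
          rw [e3]
          nlinarith
      obtain ⟨Y, hY⟩ : ∃ Y, Y = (1 + δ) * ρ (j + 1) - 1 := ⟨_, rfl⟩
      have hY0 : (1 - s) * δ ≤ Y := by rw [hY]; linarith
      rw [← hY] at h3 ⊢
      obtain ⟨w, hw⟩ : ∃ w, w = (1 - p) / ((j : ℝ) + i0) := ⟨_, rfl⟩
      rw [← hw] at h3 hex hvle
      obtain ⟨Z, hZ⟩ : ∃ Z, Z = (1 + δ) ^ 2 - (1 + δ) / ρ j := ⟨_, rfl⟩
      rw [← hZ] at h3 ⊢
      have h6 : v (j + 1) * Y ≤ v j * (1 + w - e) * Y :=
        mul_le_mul_of_nonneg_right hvle (by linarith)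
      have h7 : δ ^ 2 / c' ^ 2 + (1 + w - e) * Y ≤ Z := by
        have h8 : e * ((1 - s) * δ) ≤ e * Y := mul_le_mul_of_nonneg_left hY0 he.le
        have h9 : 0 < e * ((1 - s) * δ) := mul_pos he hsδ
        have e4 : (1 + w - e) * Y = (1 + w) * Y - e * Y := by ring
        have e5 : (1 - s) * e * δ / 2 = e * ((1 - s) * δ) / 2 := by ring
        rw [e4]
        rw [e5] at hcc
        linarith
      have h10 := mul_le_mul_of_nonneg_left h7 hvj.le
      calc δ ^ 2 / c' ^ 2 * v j + v (j + 1) * Y ≤ δ ^ 2 / c' ^ 2 * v j + v j * (1 + w - e) * Y :=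
            by linarith
        _ = v j * (δ ^ 2 / c' ^ 2 + (1 + w - e) * Y) := by ring
        _ ≤ v j * Z := h10
    · have e1 : ρ j = rr s p α β γ δ ((J : ℝ) + i0) := by
        rw [hρ]
        show rr s p α β γ δ (((min j J : ℕ) : ℝ) + i0) = _
        rw [min_eq_right hj]
      have e2 : ρ (j + 1) = ρ j := by
        rw [e1, hρ]
        show rr s p α β γ δ (((min (j + 1) J : ℕ) : ℝ) + i0) = _
        rw [min_eq_right (by omega : J ≤ j + 1)]
      obtain ⟨-, -, -, h4⟩ := hP ((J : ℝ) + i0) δ (hxi J) hδ hδδ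
      rw [← e1] at h4
      have hx0 : (0 : ℝ) < (J : ℝ) + i0 := by positivity
      have hxe : ((J : ℝ) + i0) * e ≤ 1 - p := by
        rw [hJr]
        rw [le_div_iff₀ he] at hn1
        exact hn1
      have hxe2 : (1 - p) / (2 * e) ≤ (J : ℝ) + i0 := by
        rw [hJr]
        have h5 : (1 - p) / (2 * e) = (1 - p) / e / 2 := by
          field_simp
        rw [h5]
        linarith
      have h6 : 2 / (s * ((J : ℝ) + i0)) ≤ δ := by
        rw [div_le_iff₀ (mul_pos hs0 hx0)]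
        rw [div_le_iff₀ (by positivity)] at hxe2
        have h7 : s * (1 - p) * δ ≤ s * (((J : ℝ) + i0) * (2 * e)) * δ :=
          mul_le_mul_of_nonneg_right (mul_le_mul_of_nonneg_left hxe2 hs0.le) hδ.le
        have h8 : 4 * e ≤ e * (2 * (δ * (s * ((J : ℝ) + i0)))) := by
          calc 4 * e ≤ s * (1 - p) * δ := he4
            _ ≤ s * (((J : ℝ) + i0) * (2 * e)) * δ := h7
            _ = e * (2 * (δ * (s * ((J : ℝ) + i0)))) := by ring
        have h9 : 4 ≤ 2 * (δ * (s * ((J : ℝ) + i0))) := by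
          by_contra hcon
          push Not at hcon
          have := mul_lt_mul_of_pos_left hcon he
          linarith
        linarith
      have h5 := h4 h6
      have h7 : (1 - s) * e * δ / 2 ≤ s * p * δ / ((J : ℝ) + i0) := by
        rw [le_div_iff₀ hx0, hsp]
        have h8 : 0 ≤ (1 - s) * δ / 2 := by positivity
        have h9 := mul_le_mul_of_nonneg_left hxe h8
        calc (1 - s) * e * δ / 2 * ((J : ℝ) + i0) = (1 - s) * δ / 2 * (((J : ℝ) + i0) * e) := by ring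
          _ ≤ (1 - s) * δ / 2 * (1 - p) := h9
          _ = (1 - p) * (1 - s) / 2 * δ := by ring
      have e3 : v (j + 1) = v j := vw_ge (by omega)
      rw [e2, e3]
      have h8 : δ ^ 2 / c' ^ 2 + ((1 + δ) * ρ j - 1) ≤ (1 + δ) ^ 2 - (1 + δ) / ρ j := by linarith
      have h9 := mul_le_mul_of_nonneg_left h8 hvj.le
      linarith
  -- the step
  have hstep : ∀ j : ℕ, v j * R j +
      (c' * δ⁻¹) * (v (j + 1) * ((c' * δ⁻¹) * ((1 + δ) * R (j + 1) - sh R (j + 1)))) ≤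
      (1 + δ) * ((c' * δ⁻¹) * (v j * ((c' * δ⁻¹) * ((1 + δ) * R j - sh R j)))) := by
    intro j
    rw [hsh1 j, hRs j]
    have hvj := hvp j
    have hRj := hRp j
    have hC2 : 0 < (c' * δ⁻¹) * (c' * δ⁻¹) := mul_pos hC hC
    have h6 : (c' * δ⁻¹) * (c' * δ⁻¹) * (δ ^ 2 / c' ^ 2) = 1 := by
      field_simp
    have h7 := mul_le_mul_of_nonneg_left (hkey j) (mul_nonneg hC2.le hRj.le)
    have h8 := hshle j
    have h9 : (c' * δ⁻¹) * (c' * δ⁻¹) * (v j * ((1 + δ) * sh R j)) ≤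
        (c' * δ⁻¹) * (c' * δ⁻¹) * (v j * ((1 + δ) * (R j / ρ j))) := by
      refine mul_le_mul_of_nonneg_left ?_ hC2.le
      refine mul_le_mul_of_nonneg_left ?_ hvj.le
      exact mul_le_mul_of_nonneg_left h8 (by linarith)
    calc v j * R j + (c' * δ⁻¹) * (v (j + 1) * ((c' * δ⁻¹) * ((1 + δ) * (R j * ρ (j + 1)) - R j)))
        = (c' * δ⁻¹) * (c' * δ⁻¹) * (δ ^ 2 / c' ^ 2) * (v j * R j) +
          (c' * δ⁻¹) * (c' * δ⁻¹) * R j * (v (j + 1) * ((1 + δ) * ρ (j + 1) - 1)) := by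
          rw [h6]
          ring
      _ = (c' * δ⁻¹) * (c' * δ⁻¹) * R j *
          (δ ^ 2 / c' ^ 2 * v j + v (j + 1) * ((1 + δ) * ρ (j + 1) - 1)) := by ring
      _ ≤ (c' * δ⁻¹) * (c' * δ⁻¹) * R j * (v j * ((1 + δ) ^ 2 - (1 + δ) / ρ j)) := h7
      _ = (c' * δ⁻¹) * (c' * δ⁻¹) * (v j * ((1 + δ) * ((1 + δ) * R j))) -
          (c' * δ⁻¹) * (c' * δ⁻¹) * (v j * ((1 + δ) * (R j / ρ j))) := by ring
      _ ≤ (c' * δ⁻¹) * (c' * δ⁻¹) * (v j * ((1 + δ) * ((1 + δ) * R j))) -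
          (c' * δ⁻¹) * (c' * δ⁻¹) * (v j * ((1 + δ) * sh R j)) := by linarith
      _ = (1 + δ) * ((c' * δ⁻¹) * (v j * ((c' * δ⁻¹) * ((1 + δ) * R j - sh R j)))) := by ring
  have hback := back q δ (fun j => v j * R j)
    (fun j => (c' * δ⁻¹) * (v j * ((c' * δ⁻¹) * ((1 + δ) * R j - sh R j)))) hq0.le hq1
    (fun j => by
      have h1 := hDp j
      have h2 := hvp j
      positivity) hstep
  refine hSCH (N + 1) _ (fun j => pw p e i0 M j * ((c' * δ⁻¹) * ((1 + δ) * R j - sh R j)))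
    (fun i => pw p e i0 M i * R i) (c' * δ⁻¹) hC.le ?_ ?_ ?_ ?_ ?_
  · intro i j
    have h1 := hphp i
    have h2 := hphp j
    exact mul_nonneg (k1_nonneg hδ _ _) (by positivity)
  · intro j
    have h1 := hphp j
    have h2 := hDp j
    positivity
  · intro i
    exact mul_pos (hphp i) (hRp i)
  · intro i
    have e1 : ∀ j : Fin (N + 1), k1 δ i j * (pw p e i0 M i / pw p e i0 M j) *
        (pw p e i0 M j * ((c' * δ⁻¹) * ((1 + δ) * R j - sh R j))) =
        pw p e i0 M i * (if (j : ℕ) < (i : ℕ) + 1 then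
          q ^ ((i : ℕ) - j + 1) * ((c' * δ⁻¹) * ((1 + δ) * R j - sh R j)) else 0) := by
      intro j
      have h2 := (hphp j).ne'
      unfold k1
      by_cases hji : (j : ℕ) ≤ (i : ℕ)
      · rw [if_pos hji, if_pos (by omega), ← hq]
        field_simp
      · rw [if_neg hji, if_neg (by omega)]
        ring
    have e2 : ∑ j : Fin (N + 1), k1 δ i j * (pw p e i0 M i / pw p e i0 M j) *
        (pw p e i0 M j * ((c' * δ⁻¹) * ((1 + δ) * R j - sh R j))) =
        pw p e i0 M i * ((c' * δ⁻¹) * R i) := by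
      rw [sum_congr rfl fun j _ => e1 j, ← mul_sum]
      congr 1
      rw [sum_fin_lt (f := fun j : ℕ =>
        q ^ ((i : ℕ) - j + 1) * ((c' * δ⁻¹) * ((1 + δ) * R j - sh R j))) (by
          have := i.isLt
          omega)]
      exact tele q δ (c' * δ⁻¹) R hq1 i
    refine le_of_eq (e2.trans ?_)
    ring
  · intro j
    have hpj := hphp j
    have e1 : ∀ i : Fin (N + 1), k1 δ i j * (pw p e i0 M i / pw p e i0 M j) *
        (pw p e i0 M i * R i) =
        (pw p e i0 M j)⁻¹ * (if (j : ℕ) ≤ (i : ℕ) then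
          q ^ ((i : ℕ) - j + 1) * (v i * R i) else 0) := by
      intro i
      unfold k1
      by_cases hji : (j : ℕ) ≤ (i : ℕ)
      · rw [if_pos hji, if_pos hji, ← hq, ← hph2 i]
        field_simp
      · rw [if_neg hji, if_neg hji]
        ring
    have e2 : ∑ i : Fin (N + 1), k1 δ i j * (pw p e i0 M i / pw p e i0 M j) *
        (pw p e i0 M i * R i) =
        (pw p e i0 M j)⁻¹ * ∑ i ∈ range (N + 1 - j), q ^ (i + 1) * (v (j + i) * R (j + i)) := by
      rw [sum_congr rfl fun i _ => e1 i, ← mul_sum]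
      congr 1
      rw [sum_fin_ge (f := fun i : ℕ => q ^ (i - j + 1) * (v i * R i)), sum_Ico_eq_sum_range]
      refine sum_congr rfl fun i _ => ?_
      rw [Nat.add_sub_cancel_left]
    have h3 := hback (N + 1 - j) j
    refine (le_of_eq e2).trans ?_
    have h4 : (pw p e i0 M j)⁻¹ *
        ∑ i ∈ range (N + 1 - j), q ^ (i + 1) * (v (j + i) * R (j + i)) ≤
        (pw p e i0 M j)⁻¹ *
          ((c' * δ⁻¹) * (v j * ((c' * δ⁻¹) * ((1 + δ) * R j - sh R j)))) :=
      mul_le_mul_of_nonneg_left h3 (inv_nonneg.mpr hpj.le)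
    refine h4.trans (le_of_eq ?_)
    rw [← hph2 j]
    field_simp

end Pool.Agent.Helper36.KE
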